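import Pool.Agent.H87.NaR2

namespace Pool.Agent.Results.MP_af317d_an.Renorm

open Metric

/-- A copy of the type `X`, to carry the new norm. -/
def Rn (X : Type*) := X

/-- A real or complex Banach space failing the Radon-Nikodym property has a renorming on which the
norm attaining operators are not dense. -/
theorem result.{u} (𝕜 : Type) [RCLike 𝕜] (X : Type u) [NormedAddCommGroup X] [NormedSpace 𝕜 X]
    [NormedSpace ℝ X] [IsScalarTower ℝ 𝕜 X] [CompleteSpace X]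
    (h : ¬ ∀ C : Set X, C.Nonempty → IsClosed C → Bornology.IsBounded C → Convex ℝ C →
      ∀ ε > 0, ∃ x ∈ C, x ∉ closure (convexHull ℝ (C \ ball x ε))) :
    ∃ (Y : Type u) (_ : NormedAddCommGroup Y) (_ : NormedSpace 𝕜 Y), Nonempty (X ≃L[𝕜] Y) ∧
      ¬ Dense {T : Y →L[𝕜] Y | ∃ x, ‖x‖ = 1 ∧ ‖T x‖ = ‖T‖} := by
  push Not at h
  obtain ⟨C, h1, -, h2, -, ε, hε, h3⟩ := h
  obtain ⟨N, ⟨a, b, h4⟩, T₀, δ, δ0, h5⟩ := H87.NaR.main (𝕜 := 𝕜) h3 hε h1 h2
  let _ : AddCommGroup (Rn X) := inferInstanceAs (AddCommGroup X)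
  let _ : Module 𝕜 (Rn X) := inferInstanceAs (Module 𝕜 X)
  let _ : NormedAddCommGroup (Rn X) := AddGroupNorm.toNormedAddCommGroup
    { toFun := fun x => N x
      map_zero' := map_zero N
      add_le' := map_add_le_add N
      neg' := map_neg_eq_map N
      eq_zero_of_map_eq_zero' := fun (x : X) (e : N x = 0) => norm_le_zero_iff.1 (by
        simpa only [e, mul_zero] using (h4 x).1) }
  let _ : NormedSpace 𝕜 (Rn X) := ⟨fun c (x : X) => (map_smul_eq_mul N c x).le⟩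
  let e : X ≃L[𝕜] Rn X := LinearEquiv.toContinuousLinearEquivOfBounds (LinearEquiv.refl 𝕜 X) b a
    (fun x => (h4 x).2) fun x => (h4 x).1
  refine ⟨Rn X, _, _, ⟨e⟩, fun hd => ?_⟩
  obtain ⟨T, ⟨x, x1, x2⟩, hT⟩ := hd.exists_dist_lt (e.arrowCongr e T₀) δ0
  rw [dist_comm, dist_eq_norm] at hT
  exact h5 (e.symm.arrowCongr e.symm T) (fun y => (T - e.arrowCongr e T₀).le_of_opNorm_le hT.le y) x x1
    fun y hy => (T.unit_le_opNorm y hy).trans_eq x2.symm

end Pool.Agent.Results.MP_af317d_an.Renorm
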